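import Mathlib
import Pool.Agent.H27.Sch.A

set_option autoImplicit false

namespace Pool.Agent.H27.Sch

open Finset Equiv MvPolynomial

abbrev A := MvPolynomial ℕ ℤ

def InS (N : ℕ) (v : P) : Prop := ∀ p, N ≤ p → v p = p

lemma InS.lt {N : ℕ} {v : P} (h : InS N v) {p : ℕ} (hp : p < N) : v p < N := by
  by_contra hc
  have := v.injective (h (v p) (by omega))
  omega

lemma InS.mul {N : ℕ} {v w : P} (h : InS N v) (h' : InS N w) : InS N (v * w) := fun p hp => by
  rw [Perm.mul_apply, h' p hp, h p hp]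

lemma InS.inv {N : ℕ} {v : P} (h : InS N v) : InS N v⁻¹ := fun p hp => by
  rw [Perm.inv_eq_iff_eq, h p hp]

lemma InS.mono {n N : ℕ} {v : P} (h : InS n v) (hn : n ≤ N) : InS N v :=
  fun p hp => h p (by omega)

lemma InS_s {N i : ℕ} (h : i + 1 < N) : InS N (s i) := fun p hp => s_ne (by omega) (by omega)

lemma InS_w0 (N : ℕ) : InS N (w0 N) := fun p hp => by rw [w0_apply, if_neg (by omega)]

lemma InS.desc {n i : ℕ} {v : P} (h : InS n v) (hd : v (i + 1) < v i) : i + 1 < n := by
  by_contra hc
  rw [h (i + 1) (by omega)] at hd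
  by_cases e : i < n
  · have := h.lt e; omega
  · rw [h i (by omega)] at hd; omega

def pot (N : ℕ) (v : P) : ℕ := ∑ p ∈ range N, p * v p

lemma pot_s {N i : ℕ} (hi : i + 1 < N) (v : P) :
    pot N (v * s i) + v (i + 1) = pot N v + v i := by
  have key : ∀ f : ℕ → ℕ, ∑ p ∈ range N, f p =
      f i + f (i + 1) + ∑ p ∈ ((range N).erase i).erase (i + 1), f p := by
    intro f
    rw [← add_sum_erase _ f (show i ∈ range N by simp; omega),
      ← add_sum_erase _ f (show i + 1 ∈ (range N).erase i by simp; omega), add_assoc]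
  unfold pot
  rw [key, key (fun p => p * v p)]
  have : ∑ p ∈ ((range N).erase i).erase (i + 1), p * (v * s i) p =
      ∑ p ∈ ((range N).erase i).erase (i + 1), p * v p := by
    refine sum_congr rfl fun p hp => ?_
    simp only [mem_erase] at hp
    rw [Perm.mul_apply, s_ne hp.2.1 hp.1]
  rw [this]
  simp only [Perm.mul_apply, s_i, s_i1]
  ring

lemma pot_le {N : ℕ} {v : P} (h : InS N v) : pot N v ≤ N * (N * N) := by
  unfold pot
  refine (sum_le_card_nsmul _ _ (N * N) fun p hp => ?_).trans (by simp)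
  rw [mem_range] at hp
  exact Nat.mul_le_mul hp.le (h.lt hp).le

lemma eq_w0 {N : ℕ} {v : P} (h : InS N v) (hd : ∀ i, i + 1 < N → v (i + 1) < v i) :
    v = w0 N := by
  have h1 : ∀ d i, i + d < N → v (i + d) + d ≤ v i := by
    intro d
    induction d with
    | zero => simp
    | succ d ih =>
      intro i hi
      have := ih i (by omega)
      have := hd (i + d) (by omega)
      rw [show i + (d + 1) = i + d + 1 by omega]; omega
  ext p
  rw [w0_apply]
  split_ifs with hp
  · have a := h1 p 0 (by omega)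
    have b := h1 (N - 1 - p) p (by omega)
    have c := h.lt (show 0 < N by omega)
    rw [zero_add] at a
    omega
  · exact h p (by omega)

lemma X_sub_ne (i : ℕ) : (X i - X (i + 1) : A) ≠ 0 := by
  rw [sub_ne_zero]
  intro h
  have := X_injective h
  omega

section gen
variable {B : Type} [CommRing B]

lemma comp_dl {B' : Type} [CommRing B'] (φ : B →+* B') (v : P) : φ ∘ dl v = dl v := by
  ext w; simp only [Function.comp_apply, dl]; split_ifs <;> simp

lemma dd_gen (x y : ℕ → B) (N i : ℕ) (hi : i + 1 < N) (φ : B →+* B) (hx : φ ∘ x = x ∘ s i)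
    (hy : φ ∘ y = y) (v : P) :
    (x i - x (i + 1)) * U i (op x y (HL N) (dl 1)) v =
      op x y (HL N) (dl 1) v - φ (op x y (HL N) (dl 1) v) := by
  rw [op_map, hx, hy, comp_dl, ← H_swap x y N i hi, Module.End.mul_apply, h_apply]
  ring

end gen

/-- Schubert polynomials -/
noncomputable def G (N : ℕ) : P → A := op X 0 (HL N) (dl 1)

lemma G_dd (N : ℕ) (v : P) (i : ℕ) (hi : i + 1 < N) :
    (X i - X (i + 1)) * U i (G N) v = G N v - rename (s i) (G N v) :=
  dd_gen (B := A) X 0 N i hi ((rename (s i) : A →ₐ[ℤ] A) : A →+* A) (by ext1 j; simp)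
    (by ext1 j; simp) v

lemma G_top (N : ℕ) : G N (w0 N) = ∏ i ∈ range N, X i ^ (N - 1 - i) := by
  unfold G
  rw [top]; simp

end Pool.Agent.H27.Sch
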