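import Mathlib
import Pool.Agent.H27.Sch.Table

set_option autoImplicit false

/-!
Codes of windows, weights of windows, and the finite check of the local inequality.
-/

namespace Pool.Agent.H27.Sch

/-- `1` if `a < b`, and `0` otherwise -/
def lt (a b : ℕ) : ℕ := Nat.sub (nat_lit 1) (Nat.sub (Nat.succ a) b)

/-- evaluate `n` and pass it on -/
def force (n : ℕ) (f : ℕ → Bool) : Bool :=
  Nat.rec (motive := fun _ => Bool) (f (nat_lit 0)) (fun k _ => f (Nat.succ k)) n

/-- conjunction -/
def andB (a b : Bool) : Bool := Bool.rec (motive := fun _ => Bool) false b a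

/-- disjunction -/
def orB (a b : Bool) : Bool := Bool.rec (motive := fun _ => Bool) b true a

/-- insertion code of four values -/
def code4 (a b c d : ℕ) : ℕ :=
  Nat.add (Nat.mul (Nat.add (Nat.mul (lt a b) (nat_lit 3)) (Nat.add (lt a c) (lt b c)))
    (nat_lit 4)) (Nat.add (lt a d) (Nat.add (lt b d) (lt c d)))

/-- number of the first seven values below the eighth -/
def dig (a b c d e f g h : ℕ) : ℕ :=
  Nat.add (lt a h) (Nat.add (lt b h) (Nat.add (lt c h) (Nat.add (lt d h)
    (Nat.add (lt e h) (Nat.add (lt f h) (lt g h))))))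

/-- insertion code of seven values -/
def code7 (a b c d e f g : ℕ) : ℕ :=
  Nat.add (Nat.mul
    (Nat.add (Nat.mul
      (Nat.add (Nat.mul (code4 a b c d) (nat_lit 5))
        (Nat.add (lt a e) (Nat.add (lt b e) (Nat.add (lt c e) (lt d e)))))
      (nat_lit 6))
      (Nat.add (lt a f) (Nat.add (lt b f) (Nat.add (lt c f) (Nat.add (lt d f) (lt e f))))))
    (nat_lit 7))
    (Nat.add (lt a g) (Nat.add (lt b g) (Nat.add (lt c g) (Nat.add (lt d g)
      (Nat.add (lt e g) (lt f g))))))

/-- entry `k` of a packed table -/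
def entry (T k : ℕ) : ℕ := Nat.land (Nat.shiftRight T (Nat.mul (nat_lit 20) k)) (nat_lit 1048575)

/-- eight consecutive entries of the table of the weights of windows of eight values -/
def block (k : ℕ) : ℕ := Nat.mod (Nat.shiftRight tabP (Nat.mul (nat_lit 160) k))
  (nat_lit 0x10000000000000000000000000000000000000000)

/-- weight of a window of four values -/
def phi (a b c d : ℕ) : ℕ := entry tabF (code4 a b c d)

/-- weight of a window of eight values -/
def psi (a b c d e f g h : ℕ) : ℕ := entry (block (code7 a b c d e f g)) (dig a b c d e f g h)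

/-- one instance of the local inequality -/
def ineq (A B M N R e : ℕ) : Bool :=
  Nat.ble (Nat.add (Nat.mul A (entry M e)) (Nat.mul B (entry N e))) R

/-- all instances of the local inequality for a window of eight values -/
def leaf (z0 z1 z2 z3 z4 z5 z6 z7 : ℕ) : Bool :=
  force (Nat.mul (nat_lit 10000) (phi z0 z1 z2 z3)) fun A =>
  force (Nat.mul (Nat.mul (nat_lit 10000) (lt z4 z3)) (phi z0 z1 z2 z4)) fun B =>
  force (block (code7 z1 z2 z3 z4 z5 z6 z7)) fun M =>
  force (block (code7 z1 z2 z4 z3 z5 z6 z7)) fun N =>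
  force (phi z4 z5 z6 z7) fun F =>
  force (psi z0 z1 z2 z3 z4 z5 z6 z7) fun P =>
  force (Nat.mul (nat_lit 16609) (Nat.mul F P)) fun R =>
  andB (Nat.ble (nat_lit 1) F) (andB (Nat.ble (nat_lit 1) P)
    (andB (ineq A B M N R (nat_lit 0)) (andB (ineq A B M N R (nat_lit 1))
    (andB (ineq A B M N R (nat_lit 2)) (andB (ineq A B M N R (nat_lit 3))
    (andB (ineq A B M N R (nat_lit 4)) (andB (ineq A B M N R (nat_lit 5))
    (andB (ineq A B M N R (nat_lit 6)) (ineq A B M N R (nat_lit 7))))))))))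

/-- conjunction over the naturals below eight -/
def all8 (f : ℕ → Bool) : Bool :=
  andB (f (nat_lit 0)) (andB (f (nat_lit 1)) (andB (f (nat_lit 2)) (andB (f (nat_lit 3))
    (andB (f (nat_lit 4)) (andB (f (nat_lit 5)) (andB (f (nat_lit 6)) (f (nat_lit 7))))))))

/-- the check for all windows that start with two given values -/
def chk2 (z0 z1 : ℕ) : Bool :=
  all8 fun z2 => orB (Nat.beq z2 z0) <| orB (Nat.beq z2 z1) <|
  all8 fun z3 => orB (Nat.beq z3 z0) <| orB (Nat.beq z3 z1) <| orB (Nat.beq z3 z2) <|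
  all8 fun z4 => orB (Nat.beq z4 z0) <| orB (Nat.beq z4 z1) <| orB (Nat.beq z4 z2) <|
    orB (Nat.beq z4 z3) <|
  all8 fun z5 => orB (Nat.beq z5 z0) <| orB (Nat.beq z5 z1) <| orB (Nat.beq z5 z2) <|
    orB (Nat.beq z5 z3) <| orB (Nat.beq z5 z4) <|
  all8 fun z6 => orB (Nat.beq z6 z0) <| orB (Nat.beq z6 z1) <| orB (Nat.beq z6 z2) <|
    orB (Nat.beq z6 z3) <| orB (Nat.beq z6 z4) <| orB (Nat.beq z6 z5) <|
  all8 fun z7 => orB (Nat.beq z7 z0) <| orB (Nat.beq z7 z1) <| orB (Nat.beq z7 z2) <|
    orB (Nat.beq z7 z3) <| orB (Nat.beq z7 z4) <| orB (Nat.beq z7 z5) <| orB (Nat.beq z7 z6) <|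
  leaf z0 z1 z2 z3 z4 z5 z6 z7

end Pool.Agent.H27.Sch
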