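import Mathlib
import Pool.Agent.H27.Sch.A

set_option autoImplicit false

/-!
Weighted numbers of choice sequences, and the telescoping argument with local potentials.
-/

namespace Pool.Agent.H27.Sch

open Finset Equiv

/-- weighted number of choice sequences: each letter `i` may be used (only if `u i < u (i+1)`) or
skipped, and a choice sequence counts with the weight of its last state -/
noncomputable def cw : List ℕ → ((ℕ → ℕ) → ℝ) → (ℕ → ℕ) → ℝ
  | [], g, u => g u
  | i :: L, g, u => cw L g u + if u i < u (i + 1) then cw L g (u ∘ s i) else 0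

lemma cw_append (L L' : List ℕ) (g : (ℕ → ℕ) → ℝ) (u : ℕ → ℕ) :
    cw (L ++ L') g u = cw L (cw L' g) u := by
  induction L generalizing u with
  | nil => rfl
  | cons i L ih => simp only [List.cons_append, cw, ih]

lemma cw_mono (L : List ℕ) (g g' : (ℕ → ℕ) → ℝ)
    (h : ∀ u, Function.Injective u → g u ≤ g' u) (u : ℕ → ℕ) (hu : Function.Injective u) :
    cw L g u ≤ cw L g' u := by
  induction L generalizing u with
  | nil => exact h u hu
  | cons i L ih =>
    simp only [cw]
    refine add_le_add (ih u hu) ?_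
    split_ifs
    · exact ih _ (hu.comp (s i).injective)
    · exact le_rfl

lemma cw_smul (L : List ℕ) (c : ℝ) (g : (ℕ → ℕ) → ℝ) (u : ℕ → ℕ) :
    cw L (fun u => c * g u) u = c * cw L g u := by
  induction L generalizing u with
  | nil => rfl
  | cons i L ih =>
    simp only [cw, ih]
    split_ifs <;> ring

/-! ### from operators to choice sequences -/

lemma U_dl_zero {v : P} {i : ℕ} (hv : v (i + 1) < v i) : U i (dl v : P → ℝ) = 0 := by
  ext w
  simp only [U_apply, dl, Pi.zero_apply]
  split_ifs with h1 h2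
  · exfalso
    have : w = v * s i := by rw [← h2, mul_s_s]
    rw [this] at h1
    simp only [Perm.mul_apply, s_i, s_i1] at h1
    omega
  · rfl
  · rfl

lemma op_le_cw (L : List (ℕ × ℕ)) (v w : P) :
    op (fun _ => (1 : ℝ)) 0 L (dl v) w ≤ cw (L.reverse.map fun p => p.1 + p.2) (fun _ => 1) v := by
  induction L using List.reverseRecOn generalizing v with
  | nil =>
    simp only [op_nil, Module.End.one_apply, List.reverse_nil, List.map_nil, cw, dl]
    split_ifs <;> norm_num
  | append_singleton L p ih =>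
    rw [op_append, op_cons, op_nil, mul_one, Module.End.mul_apply, List.reverse_append,
      List.reverse_singleton, List.singleton_append, List.map_cons, cw]
    have e : h (p.1 + p.2) (1 + (0 : ℕ → ℝ) p.2) (dl v) = dl v + U (p.1 + p.2) (dl v) := by
      simp [h]
    rw [e, map_add, Pi.add_apply]
    refine add_le_add (ih v) ?_
    split_ifs with hv
    · rw [U_dl hv]
      exact ih _
    · have hne : v (p.1 + p.2) ≠ v (p.1 + p.2 + 1) := fun e => by
        have := v.injective e; omega
      rw [U_dl_zero (by omega), map_zero]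
      rfl

/-! ### shifting -/

/-- shift of a function by `q` -/
def sh (q : ℕ) (f : ℕ → ℕ) : ℕ → ℕ := fun k => if k < q then k else f (k - q) + q

lemma sh_inj (q : ℕ) {f : ℕ → ℕ} (hf : Function.Injective f) : Function.Injective (sh q f) := by
  intro a b hab
  simp only [sh] at hab
  split_ifs at hab with h1 h2 h2
  · exact hab
  · omega
  · omega
  · have := hf (a₁ := a - q) (a₂ := b - q) (by omega)
    omega

lemma sh_comp (q i : ℕ) (f : ℕ → ℕ) : sh q (f ∘ s i) = sh q f ∘ s (i + q) := by
  ext k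
  simp only [sh, Function.comp_apply, s_apply]
  by_cases h1 : k < q
  · simp [h1, show k ≠ i + q by omega, show k ≠ i + q + 1 by omega]
  · by_cases h2 : k = i + q
    · subst h2
      simp [show ¬ (i + q + 1 < q) by omega, show i + q + 1 - q = i + 1 by omega]
    · by_cases h3 : k = i + q + 1
      · subst h3
        simp [show ¬ (i + q + 1 < q) by omega, show i + q + 1 - q = i + 1 by omega]
      · simp [h1, h2, h3, show k - q ≠ i by omega, show k - q ≠ i + 1 by omega]

lemma cw_sh (q : ℕ) (L : List ℕ) (f : ℕ → ℕ) :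
    cw (L.map (· + q)) (fun _ => 1) (sh q f) = cw L (fun _ => 1) f := by
  induction L generalizing f with
  | nil => rfl
  | cons i L ih =>
    simp only [List.map_cons, cw]
    rw [ih, ← sh_comp, ih]
    have e1 : sh q f (i + q) = f i + q := by simp [sh]
    have e2 : sh q f (i + q + 1) = f (i + 1) + q := by
      simp [sh, show ¬ (i + q + 1 < q) by omega, show i + q + 1 - q = i + 1 by omega]
    rw [e1, e2]
    simp only [add_lt_add_iff_right]

/-! ### rows -/

/-- the letters `b + r - 1 + q, …, b + q` -/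
def row (q b : ℕ) : ℕ → List ℕ
  | 0 => []
  | r + 1 => (b + r + q) :: row q b r

/-- the rows `0, …, r - 1` of the staircase word of `N` -/
def rows (q N : ℕ) : ℕ → List ℕ
  | 0 => []
  | r + 1 => rows q N r ++ row q r (N - 1 - r)

lemma rowL_row (q k m : ℕ) :
    (rowL k m).reverse.map (fun p => p.1 + p.2 + q) = row q k m := by
  induction m with
  | zero => rfl
  | succ m ih =>
    rw [rowL_succ, List.reverse_append, List.reverse_singleton, List.singleton_append,
      List.map_cons, ih, row]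

lemma seg_rows (q N r : ℕ) :
    (seg N 0 r).reverse.map (fun p => p.1 + p.2 + q) = rows q N r := by
  induction r with
  | zero => rfl
  | succ r ih =>
    rw [seg, List.reverse_append, List.map_append, ih, rows, Nat.zero_add, rowL_row]

lemma HL_rows (q N : ℕ) :
    ((HL N).reverse.map fun p => p.1 + p.2).map (· + q) = rows q N N := by
  rw [List.map_map, ← seg_rows]
  rfl

/-! ### potentials -/

/-- Local potentials. The weight `F u k` belongs to a window of `q + 1 - a` values from position
`k` on, and `G u m` to a window of values from position `m` on. -/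
structure Pot (q a : ℕ) (μ B : ℝ) (F G : (ℕ → ℕ) → ℕ → ℝ) : Prop where
  ha : a ≤ q
  hμ : 0 ≤ μ
  hB : 1 ≤ B
  F1 : ∀ u k, Function.Injective u → 1 ≤ F u k
  F2 : ∀ u k, F u k ≤ B
  G1 : ∀ u k, Function.Injective u → 1 ≤ G u k
  G2 : ∀ u k, G u k ≤ B
  hlow : ∀ u m k, k < m + a → F (u ∘ s (m + q)) k = F u k
  hhigh : ∀ u m k, m + q + 2 ≤ k → F (u ∘ s (m + q)) k = F u k
  loc : ∀ u m, Function.Injective u →
    G u m * F u (m + q + 1) + (if u (m + q) < u (m + q + 1) then
      G (u ∘ s (m + q)) m * F (u ∘ s (m + q)) (m + q + 1) else 0) ≤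
      μ * (G u (m + 1) * F u (m + a))

variable {q a : ℕ} {μ B : ℝ} {F G : (ℕ → ℕ) → ℕ → ℝ}

/-- the potential with carrier at position `j + q` -/
noncomputable def Q (q a : ℕ) (F G : (ℕ → ℕ) → ℕ → ℝ) (M j : ℕ) (u : ℕ → ℕ) : ℝ :=
  (∏ k ∈ range (j + a), F u k) * G u j * ∏ k ∈ Ico (j + q + 1) M, F u k

/-- the product of all window weights -/
noncomputable def Full (F : (ℕ → ℕ) → ℕ → ℝ) (M : ℕ) (u : ℕ → ℕ) : ℝ := ∏ k ∈ range M, F u k

lemma Q_step (H : Pot q a μ B F G) (M m : ℕ) (hm : m + q + 1 < M) (u : ℕ → ℕ)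
    (hu : Function.Injective u) :
    Q q a F G M m u + (if u (m + q) < u (m + q + 1) then Q q a F G M m (u ∘ s (m + q)) else 0) ≤
      μ * Q q a F G M (m + 1) u := by
  have hu' : Function.Injective (u ∘ s (m + q)) := hu.comp (s (m + q)).injective
  set R := ∏ k ∈ range (m + a), F u k with hR
  set T := ∏ k ∈ Ico (m + q + 2) M, F u k with hT
  have hR0 : 0 ≤ R := prod_nonneg fun k _ => zero_le_one.trans (H.F1 u k hu)
  have hT0 : 0 ≤ T := prod_nonneg fun k _ => zero_le_one.trans (H.F1 u k hu)
  have e1 : Q q a F G M m u = R * T * (G u m * F u (m + q + 1)) := by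
    rw [Q, prod_eq_prod_Ico_succ_bot hm]
    ring
  have e2 : Q q a F G M m (u ∘ s (m + q)) =
      R * T * (G (u ∘ s (m + q)) m * F (u ∘ s (m + q)) (m + q + 1)) := by
    rw [Q, prod_eq_prod_Ico_succ_bot hm]
    have r1 : ∏ k ∈ range (m + a), F (u ∘ s (m + q)) k = R :=
      prod_congr rfl fun k hk => H.hlow u m k (mem_range.1 hk)
    have r2 : ∏ k ∈ Ico (m + q + 1 + 1) M, F (u ∘ s (m + q)) k = T :=
      prod_congr rfl fun k hk => H.hhigh u m k (mem_Ico.1 hk).1
    rw [r1, r2]
    ring
  have e3 : Q q a F G M (m + 1) u = R * T * (G u (m + 1) * F u (m + a)) := by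
    rw [Q, show m + 1 + a = m + a + 1 by omega, prod_range_succ,
      show m + 1 + q + 1 = m + q + 2 by omega]
    ring
  rw [e1, e2, e3]
  have := mul_le_mul_of_nonneg_left (H.loc u m hu) (mul_nonneg hR0 hT0)
  calc _ = R * T * (G u m * F u (m + q + 1) + (if u (m + q) < u (m + q + 1) then
        G (u ∘ s (m + q)) m * F (u ∘ s (m + q)) (m + q + 1) else 0)) := by
        split_ifs <;> ring
    _ ≤ _ := this
    _ = _ := by ring

lemma cw_row (H : Pot q a μ B F G) (M b r : ℕ) (hM : b + r + q < M) (u : ℕ → ℕ)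
    (hu : Function.Injective u) :
    cw (row q b r) (Q q a F G M b) u ≤ μ ^ r * Q q a F G M (b + r) u := by
  induction r generalizing u with
  | zero => simp [row, cw]
  | succ r ih =>
    simp only [row, cw]
    have h1 := ih (by omega) u hu
    have h2 := ih (by omega) (u ∘ s (b + r + q)) (hu.comp (s (b + r + q)).injective)
    have h3 := Q_step H M (b + r) (by omega) u hu
    have h4 := mul_le_mul_of_nonneg_left h3 (pow_nonneg H.hμ r)
    calc _ ≤ μ ^ r * Q q a F G M (b + r) u + (if u (b + r + q) < u (b + r + q + 1) then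
          μ ^ r * Q q a F G M (b + r) (u ∘ s (b + r + q)) else 0) := by
          refine add_le_add h1 ?_
          split_ifs
          · exact h2
          · exact le_rfl
      _ = μ ^ r * (Q q a F G M (b + r) u + (if u (b + r + q) < u (b + r + q + 1) then
          Q q a F G M (b + r) (u ∘ s (b + r + q)) else 0)) := by
          split_ifs <;> ring
      _ ≤ _ := h4
      _ = _ := by rw [pow_succ, ← add_assoc]; ring

lemma one_le_prod_F (H : Pot q a μ B F G) (S : Finset ℕ) (u : ℕ → ℕ)
    (hu : Function.Injective u) : 1 ≤ ∏ k ∈ S, F u k := by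
  calc (1 : ℝ) = ∏ _k ∈ S, (1 : ℝ) := by simp
    _ ≤ _ := prod_le_prod (fun _ _ => zero_le_one) fun k _ => H.F1 u k hu

lemma prod_F_le (H : Pot q a μ B F G) (S : Finset ℕ) (u : ℕ → ℕ)
    (hu : Function.Injective u) : ∏ k ∈ S, F u k ≤ B ^ S.card := by
  calc ∏ k ∈ S, F u k ≤ ∏ _k ∈ S, B :=
        prod_le_prod (fun k _ => zero_le_one.trans (H.F1 u k hu)) fun k _ => H.F2 u k
    _ = _ := by simp

lemma Full_split (F : (ℕ → ℕ) → ℕ → ℝ) (ha : a ≤ q) (M j : ℕ) (u : ℕ → ℕ) (hj : j + q + 1 ≤ M) :
    Full F M u = (∏ k ∈ range (j + a), F u k) * (∏ k ∈ Ico (j + a) (j + q + 1), F u k) *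
      ∏ k ∈ Ico (j + q + 1) M, F u k := by
  rw [Full, range_eq_Ico, range_eq_Ico, prod_Ico_consecutive _ (by omega) (by omega),
    prod_Ico_consecutive _ (by omega) (by omega)]

lemma Q_le_Full (H : Pot q a μ B F G) (M j : ℕ) (u : ℕ → ℕ) (hj : j + q + 1 ≤ M)
    (hu : Function.Injective u) : Q q a F G M j u ≤ B * Full F M u := by
  rw [Full_split F H.ha M j u hj, Q]
  have h1 := one_le_prod_F H (range (j + a)) u hu
  have h2 := one_le_prod_F H (Ico (j + a) (j + q + 1)) u hu
  have h3 := one_le_prod_F H (Ico (j + q + 1) M) u hu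
  have h4 := H.G2 u j
  have h5 := H.hB
  have h6 : G u j ≤ B * ∏ k ∈ Ico (j + a) (j + q + 1), F u k :=
    h4.trans (le_mul_of_one_le_right (zero_le_one.trans h5) h2)
  calc _ ≤ (∏ k ∈ range (j + a), F u k) * (B * ∏ k ∈ Ico (j + a) (j + q + 1), F u k) *
        ∏ k ∈ Ico (j + q + 1) M, F u k := by gcongr
    _ = _ := by ring

lemma Full_le_Q (H : Pot q a μ B F G) (M j : ℕ) (u : ℕ → ℕ) (hj : j + q + 1 ≤ M)
    (hu : Function.Injective u) : Full F M u ≤ B ^ (q + 1) * Q q a F G M j u := by
  rw [Full_split F H.ha M j u hj, Q]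
  have h1 := one_le_prod_F H (range (j + a)) u hu
  have h2 := prod_F_le H (Ico (j + a) (j + q + 1)) u hu
  have h3 := one_le_prod_F H (Ico (j + q + 1) M) u hu
  have h4 := H.G1 u j hu
  have h5 := H.hB
  have h6 : ∏ k ∈ Ico (j + a) (j + q + 1), F u k ≤ B ^ (q + 1) * G u j := by
    refine h2.trans ?_
    have : B ^ (Ico (j + a) (j + q + 1)).card ≤ B ^ (q + 1) :=
      pow_le_pow_right₀ h5 (by rw [Nat.card_Ico]; omega)
    exact this.trans (le_mul_of_one_le_right (by positivity) h4)
  calc _ ≤ (∏ k ∈ range (j + a), F u k) * (B ^ (q + 1) * G u j) *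
        ∏ k ∈ Ico (j + q + 1) M, F u k := by gcongr
    _ = _ := by ring

lemma cw_row_Full (H : Pot q a μ B F G) (M b r : ℕ) (hM : b + r + q < M) (u : ℕ → ℕ)
    (hu : Function.Injective u) :
    cw (row q b r) (Full F M) u ≤ B ^ (q + 2) * μ ^ r * Full F M u := by
  have h5 := H.hB
  have hμ := H.hμ
  calc cw (row q b r) (Full F M) u
      ≤ cw (row q b r) (fun u => B ^ (q + 1) * Q q a F G M b u) u :=
        cw_mono _ _ _ (fun u hu => Full_le_Q H M b u (by omega) hu) u hu
    _ = B ^ (q + 1) * cw (row q b r) (Q q a F G M b) u := cw_smul _ _ _ _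
    _ ≤ B ^ (q + 1) * (μ ^ r * Q q a F G M (b + r) u) := by
        gcongr
        exact cw_row H M b r hM u hu
    _ ≤ B ^ (q + 1) * (μ ^ r * (B * Full F M u)) := by
        gcongr
        exact Q_le_Full H M (b + r) u (by omega) hu
    _ = _ := by rw [pow_succ B (q + 1)]; ring

lemma cw_rows_Full (H : Pot q a μ B F G) (N r : ℕ) (hr : r ≤ N) (u : ℕ → ℕ)
    (hu : Function.Injective u) :
    cw (rows q N r) (Full F (N + q)) u ≤
      (B ^ (q + 2)) ^ r * μ ^ (∑ i ∈ range r, (N - 1 - i)) * Full F (N + q) u := by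
  induction r with
  | zero => simp [rows, cw]
  | succ r ih =>
    have h5 := H.hB
    have hμ := H.hμ
    rw [rows, cw_append]
    calc cw (rows q N r) (cw (row q r (N - 1 - r)) (Full F (N + q))) u
        ≤ cw (rows q N r) (fun u => (B ^ (q + 2) * μ ^ (N - 1 - r)) * Full F (N + q) u) u :=
          cw_mono _ _ _ (fun u hu => cw_row_Full H (N + q) r (N - 1 - r) (by omega) u hu) u hu
      _ = (B ^ (q + 2) * μ ^ (N - 1 - r)) * cw (rows q N r) (Full F (N + q)) u := cw_smul _ _ _ _
      _ ≤ (B ^ (q + 2) * μ ^ (N - 1 - r)) *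
          ((B ^ (q + 2)) ^ r * μ ^ (∑ i ∈ range r, (N - 1 - i)) * Full F (N + q) u) := by
          gcongr
          exact ih (by omega)
      _ = _ := by rw [sum_range_succ, pow_add μ, pow_succ (B ^ (q + 2)) r]; ring

lemma cw_rows (H : Pot q a μ B F G) (N : ℕ) (u : ℕ → ℕ) (hu : Function.Injective u) :
    cw (rows q N N) (fun _ => 1) u ≤
      (B ^ (q + 2)) ^ N * μ ^ (∑ i ∈ range N, i) * B ^ (N + q) := by
  have h5 := H.hB
  have hμ := H.hμ
  calc cw (rows q N N) (fun _ => 1) u ≤ cw (rows q N N) (Full F (N + q)) u :=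
        cw_mono _ _ _ (fun u hu => one_le_prod_F H _ u hu) u hu
    _ ≤ (B ^ (q + 2)) ^ N * μ ^ (∑ i ∈ range N, (N - 1 - i)) * Full F (N + q) u :=
        cw_rows_Full H N N le_rfl u hu
    _ ≤ (B ^ (q + 2)) ^ N * μ ^ (∑ i ∈ range N, (N - 1 - i)) * B ^ (N + q) := by
        gcongr
        have := prod_F_le H (range (N + q)) u hu
        rwa [card_range] at this
    _ = _ := by rw [sum_range_reflect (fun i => i) N]

/-- The bound for the coefficients of the product of the operators along the staircase. -/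
theorem op_le (H : Pot q a μ B F G) (N : ℕ) (w : P) :
    op (fun _ => (1 : ℝ)) 0 (HL N) (dl 1) w ≤
      (B ^ (q + 2)) ^ N * μ ^ (∑ i ∈ range N, i) * B ^ (N + q) := by
  refine (op_le_cw (HL N) 1 w).trans ?_
  rw [← cw_sh q, HL_rows]
  exact cw_rows H N _ (sh_inj q fun _ _ h => h)

end Pool.Agent.H27.Sch
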