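import Mathlib
import Pool.Agent.H27.Sch.B

set_option autoImplicit false

/-!
Families of Schubert polynomials indexed by the permutations of `Fin n`, and their description by
the operators of `Pool.Agent.H27.Sch.A`.
-/

namespace Pool.Agent.H27.Sch

/-- The adjacent transposition `s_i` (positions `i`, `i+1`, counted from `0`). -/
def tr {n : ℕ} (i : ℕ) (hi : i + 1 < n) : Equiv.Perm (Fin n) :=
  Equiv.swap ⟨i, Nat.lt_of_succ_lt hi⟩ ⟨i + 1, hi⟩

/-- The number of inversions. -/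
def len {n : ℕ} (w : Equiv.Perm (Fin n)) : ℕ :=
  (Finset.univ.filter (fun p : Fin n × Fin n => p.1 < p.2 ∧ w p.2 < w p.1)).card

lemma tr_mul_tr {n : ℕ} (w : Equiv.Perm (Fin n)) (i : ℕ) (hi : i + 1 < n) :
    w * tr i hi * tr i hi = w := by
  rw [mul_assoc]; unfold tr; rw [Equiv.swap_mul_self, mul_one]

lemma tr_left {n : ℕ} (w : Equiv.Perm (Fin n)) (i : ℕ) (hi : i + 1 < n) (h : i < n) :
    (w * tr i hi) ⟨i, h⟩ = w ⟨i + 1, hi⟩ := by
  rw [Equiv.Perm.mul_apply]; unfold tr; rw [Equiv.swap_apply_left]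

lemma tr_right {n : ℕ} (w : Equiv.Perm (Fin n)) (i : ℕ) (hi : i + 1 < n) (h : i + 1 < n) :
    (w * tr i hi) ⟨i + 1, h⟩ = w ⟨i, Nat.lt_of_succ_lt hi⟩ := by
  rw [Equiv.Perm.mul_apply]; unfold tr; rw [Equiv.swap_apply_right]

lemma tr_ne {n : ℕ} (w : Equiv.Perm (Fin n)) (i : ℕ) (hi : i + 1 < n) (k : ℕ) (h : k < n)
    (h1 : k ≠ i) (h2 : k ≠ i + 1) : (w * tr i hi) ⟨k, h⟩ = w ⟨k, h⟩ := by
  rw [Equiv.Perm.mul_apply]; unfold tr
  rw [Equiv.swap_apply_of_ne_of_ne]
  · intro h3; exact h1 (Fin.mk.inj_iff.mp h3)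
  · intro h3; exact h2 (Fin.mk.inj_iff.mp h3)

lemma tr_lt {n : ℕ} (i : ℕ) (hi : i + 1 < n) (x y : Fin n) (hxy : x < y)
    (hne : ¬ (x.val = i ∧ y.val = i + 1)) : tr i hi x < tr i hi y := by
  unfold tr
  simp only [Equiv.swap_apply_def, Fin.ext_iff]
  rw [Fin.lt_def] at hxy
  split_ifs <;> simp only [Fin.lt_def] <;> omega

lemma len_tr {n : ℕ} (w : Equiv.Perm (Fin n)) (i : ℕ) (hi : i + 1 < n)
    (h : w ⟨i + 1, hi⟩ < w ⟨i, Nat.lt_of_succ_lt hi⟩) : len (w * tr i hi) + 1 = len w := by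
  set a : Fin n := ⟨i, Nat.lt_of_succ_lt hi⟩ with ha
  set b : Fin n := ⟨i + 1, hi⟩ with hb
  have htt : ∀ x, tr i hi (tr i hi x) = x := fun x => by unfold tr; exact Equiv.swap_apply_self _ _ x
  have hmem : (a, b) ∈ Finset.univ.filter
      (fun p : Fin n × Fin n => p.1 < p.2 ∧ w p.2 < w p.1) := by
    rw [Finset.mem_filter]
    refine ⟨Finset.mem_univ _, ?_, h⟩
    rw [Fin.lt_def]; simp [ha, hb]
  unfold len
  rw [← Finset.card_erase_add_one hmem]
  congr 1
  apply Finset.card_nbij' (fun p => (tr i hi p.1, tr i hi p.2))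
    (fun p => (tr i hi p.1, tr i hi p.2))
  · intro p hp
    rw [Finset.mem_coe, Finset.mem_filter] at hp
    obtain ⟨-, hp⟩ := hp
    simp only [Equiv.Perm.mul_apply] at hp
    have hne : ¬ (p.1.val = i ∧ p.2.val = i + 1) := by
      rintro ⟨h1, h2⟩
      have e1 : p.1 = a := Fin.ext h1
      have e2 : p.2 = b := Fin.ext h2
      have h3 := hp.2
      rw [e1, e2] at h3
      have t1 : tr i hi a = b := by unfold tr; exact Equiv.swap_apply_left _ _
      have t2 : tr i hi b = a := by unfold tr; exact Equiv.swap_apply_right _ _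
      rw [t1, t2] at h3
      exact lt_asymm h h3
    rw [Finset.mem_coe, Finset.mem_erase, Finset.mem_filter]
    refine ⟨?_, Finset.mem_univ _, ⟨tr_lt i hi _ _ hp.1 hne, hp.2⟩⟩
    intro h4
    have h5 := congrArg Prod.fst h4
    have h6 := congrArg Prod.snd h4
    simp only at h5 h6
    have h7 := congrArg (tr i hi) h5
    have h8 := congrArg (tr i hi) h6
    have t1 : tr i hi a = b := by unfold tr; exact Equiv.swap_apply_left _ _
    have t2 : tr i hi b = a := by unfold tr; exact Equiv.swap_apply_right _ _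
    rw [htt, t1] at h7
    rw [htt, t2] at h8
    have h9 := hp.1
    rw [h7, h8, Fin.lt_def] at h9
    simp [ha, hb] at h9
  · intro p hp
    rw [Finset.mem_coe, Finset.mem_erase, Finset.mem_filter] at hp
    rw [Finset.mem_coe, Finset.mem_filter]
    refine ⟨Finset.mem_univ _, tr_lt i hi _ _ hp.2.2.1 ?_, ?_⟩
    · rintro ⟨h1, h2⟩
      exact hp.1 (Prod.ext (Fin.ext h1) (Fin.ext h2))
    · simp only [Equiv.Perm.mul_apply, htt]
      exact hp.2.2.2
  · intro p _
    simp [htt]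
  · intro p _
    simp [htt]


/-- the length drops exactly at the descents -/
lemma len_tr_lt_iff {n : ℕ} (w : Equiv.Perm (Fin n)) (i : ℕ) (hi : i + 1 < n) :
    len (w * tr i hi) < len w ↔ w ⟨i + 1, hi⟩ < w ⟨i, Nat.lt_of_succ_lt hi⟩ := by
  constructor
  · intro h
    by_contra hc
    have hne : w ⟨i, Nat.lt_of_succ_lt hi⟩ ≠ w ⟨i + 1, hi⟩ := fun e => by
      have := w.injective e
      rw [Fin.mk.injEq] at this
      omega
    have h2 : (w * tr i hi) ⟨i + 1, hi⟩ < (w * tr i hi) ⟨i, Nat.lt_of_succ_lt hi⟩ := by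
      rw [tr_left, tr_right]
      exact lt_of_le_of_ne (not_lt.1 hc) hne
    have h3 := len_tr _ i hi h2
    rw [tr_mul_tr] at h3
    omega
  · intro h
    have := len_tr w i hi h
    omega

open Finset Equiv MvPolynomial

/-- Families that satisfy the defining recursion, with descents in place of lengths. -/
def IsSchubert (n : ℕ) (S : Perm (Fin n) → MvPolynomial ℕ ℤ) : Prop :=
  S Fin.revPerm = ∏ i : Fin n, X (i : ℕ) ^ (n - 1 - (i : ℕ)) ∧
  ∀ (w : Perm (Fin n)) (i j : Fin n), (j : ℕ) = (i : ℕ) + 1 → w j < w i →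
    (X (i : ℕ) - X (j : ℕ)) * S (w * swap i j) = S w - rename (swap (i : ℕ) (j : ℕ)) (S w)

noncomputable def ι {n : ℕ} (w : Perm (Fin n)) : P := w.viaEmbedding Fin.valEmbedding

lemma ι_apply {n : ℕ} (w : Perm (Fin n)) (i : Fin n) : ι w i = w i :=
  w.viaEmbedding_apply Fin.valEmbedding i

lemma ι_InS {n : ℕ} (w : Perm (Fin n)) : InS n (ι w) := fun p hp =>
  w.viaEmbedding_apply_of_notMem Fin.valEmbedding p (by
    rintro ⟨i, rfl⟩
    have := i.2
    simp only [Fin.valEmbedding_apply] at hp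
    omega)

lemma ι_ext {n : ℕ} {w : Perm (Fin n)} {v : P} (hv : InS n v) (h : ∀ i : Fin n, v i = w i) :
    ι w = v := by
  ext p
  by_cases hp : p < n
  · exact (ι_apply w ⟨p, hp⟩).trans (h ⟨p, hp⟩).symm
  · rw [ι_InS w p (by omega), hv p (by omega)]

lemma ι_swap {n : ℕ} (w : Perm (Fin n)) (i j : Fin n) (hj : (j : ℕ) = i + 1) :
    ι (w * swap i j) = ι w * s i := by
  refine ι_ext ((ι_InS w).mul (InS_s (hj ▸ j.2))) fun k => ?_
  rw [Perm.mul_apply, Perm.mul_apply, ← ι_apply]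
  congr 1
  rw [s_apply, swap_apply_def]
  simp only [← Fin.val_inj]
  split_ifs <;> omega

lemma ι_rev (n : ℕ) : ι (Fin.revPerm : Perm (Fin n)) = w0 n := by
  refine ι_ext (InS_w0 n) fun k => ?_
  rw [w0_apply, if_pos k.2]
  simp only [Fin.revPerm_apply, Fin.val_rev]
  omega

lemma G_isSchubert (n : ℕ) : IsSchubert n (fun w => G n (ι w)) := by
  refine ⟨?_, fun w i j hj hw => ?_⟩
  · show G n (ι _) = _
    rw [ι_rev, G_top]
    exact (Fin.prod_univ_eq_prod_range (fun i => (X i : A) ^ (n - 1 - i)) n).symm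
  · have := G_dd n (ι w) i (hj ▸ j.2)
    rw [U_apply, ← hj, ι_apply, ι_apply, if_pos (by exact_mod_cast hw), ← ι_swap w i j hj] at this
    rw [this, s, hj]

lemma eq_G {n : ℕ} {S : Perm (Fin n) → MvPolynomial ℕ ℤ} (hS : IsSchubert n S)
    (w : Perm (Fin n)) : S w = G n (ι w) := by
  have hG := G_isSchubert n
  induction hp : pot n (ι w) using Nat.strong_induction_on generalizing w with
  | _ k ih =>
    by_cases hd : ∀ i, i + 1 < n → ι w (i + 1) < ι w i
    · have e1 := eq_w0 (ι_InS w) hd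
      have e2 : w = Fin.revPerm := by
        ext i
        rw [← ι_apply, e1, ← ι_rev, ι_apply]
      rw [e2, hS.1]
      exact hG.1.symm
    · push Not at hd
      obtain ⟨i, hi, hd⟩ := hd
      have hne : ι w i ≠ ι w (i + 1) := fun e => by have := (ι w).injective e; omega
      set a : Fin n := ⟨i, by omega⟩
      set b : Fin n := ⟨i + 1, hi⟩
      have e1 : ι (w * swap a b) = ι w * s i := ι_swap w a b rfl
      have e := pot_s hi (ι w)
      have z := ih _ (by rw [e1]; omega) (w * swap a b) rfl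
      have hlt : (w * swap a b) b < (w * swap a b) a := by
        simp only [Perm.mul_apply, swap_apply_left, swap_apply_right]
        have h1 : ι w i = w a := ι_apply w a
        have h2 : ι w (i + 1) = w b := ι_apply w b
        rw [Fin.lt_def]; omega
      have t1 := hS.2 _ a b rfl hlt
      have t2 := hG.2 _ a b rfl hlt
      simp only [mul_swap_mul_self] at t1 t2
      rw [z, ← t2] at t1
      exact mul_left_cancel₀ (X_sub_ne i) t1


end Pool.Agent.H27.Sch
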