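import Mathlib
import Pool.Agent.H27.Sch.Check
import Pool.Agent.H27.Sch.Count

set_option autoImplicit false

/-!
The finite check gives local potentials.
-/

namespace Pool.Agent.H27.Sch

lemma lt_eq (a b : ℕ) : lt a b = if a < b then 1 else 0 := by
  show 1 - (a + 1 - b) = _
  split_ifs <;> omega

lemma force_eq (n : ℕ) (f : ℕ → Bool) : force n f = f n := by
  cases n <;> rfl

lemma andB_eq (a b : Bool) : andB a b = (a && b) := by
  cases a <;> cases b <;> rfl

lemma orB_eq (a b : Bool) : orB a b = (a || b) := by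
  cases a <;> cases b <;> rfl

lemma all8_spec {f : ℕ → Bool} (h : all8 f = true) (y : ℕ) (hy : y < 8) : f y = true := by
  simp only [all8, andB_eq, Bool.and_eq_true] at h
  obtain ⟨h0, h1, h2, h3, h4, h5, h6, h7⟩ := h
  interval_cases y
  · exact h0
  · exact h1
  · exact h2
  · exact h3
  · exact h4
  · exact h5
  · exact h6
  · exact h7

lemma orB_spec {a b : ℕ} {c : Bool} (h : orB (Nat.beq a b) c = true) (hab : a ≠ b) : c = true := by
  rw [orB_eq, Bool.or_eq_true] at h
  rcases h with h | h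
  · exact absurd (Nat.eq_of_beq_eq_true h) hab
  · exact h

lemma chk2_spec {z0 z1 : ℕ} (h : chk2 z0 z1 = true) (z : Fin 8 → ℕ) (h0 : z 0 = z0)
    (h1 : z 1 = z1) (hz : ∀ i, z i < 8) (hi : Function.Injective z) :
    leaf (z 0) (z 1) (z 2) (z 3) (z 4) (z 5) (z 6) (z 7) = true := by
  subst h0 h1
  have hne : ∀ i j : Fin 8, i ≠ j → z i ≠ z j := fun i j hij e => hij (hi e)
  have e2 := all8_spec h (z 2) (hz 2)
  have e2' := orB_spec (orB_spec e2 (hne 2 0 (by decide))) (hne 2 1 (by decide))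
  have e3 := all8_spec e2' (z 3) (hz 3)
  have e3' := orB_spec (orB_spec (orB_spec e3 (hne 3 0 (by decide))) (hne 3 1 (by decide)))
    (hne 3 2 (by decide))
  have e4 := all8_spec e3' (z 4) (hz 4)
  have e4' := orB_spec (orB_spec (orB_spec (orB_spec e4 (hne 4 0 (by decide)))
    (hne 4 1 (by decide))) (hne 4 2 (by decide))) (hne 4 3 (by decide))
  have e5 := all8_spec e4' (z 5) (hz 5)
  have e5' := orB_spec (orB_spec (orB_spec (orB_spec (orB_spec e5 (hne 5 0 (by decide)))
    (hne 5 1 (by decide))) (hne 5 2 (by decide))) (hne 5 3 (by decide))) (hne 5 4 (by decide))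
  have e6 := all8_spec e5' (z 6) (hz 6)
  have e6' := orB_spec (orB_spec (orB_spec (orB_spec (orB_spec (orB_spec e6
    (hne 6 0 (by decide))) (hne 6 1 (by decide))) (hne 6 2 (by decide))) (hne 6 3 (by decide)))
    (hne 6 4 (by decide))) (hne 6 5 (by decide))
  have e7 := all8_spec e6' (z 7) (hz 7)
  exact orB_spec (orB_spec (orB_spec (orB_spec (orB_spec (orB_spec (orB_spec e7
    (hne 7 0 (by decide))) (hne 7 1 (by decide))) (hne 7 2 (by decide))) (hne 7 3 (by decide)))
    (hne 7 4 (by decide))) (hne 7 5 (by decide))) (hne 7 6 (by decide))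

/-- the check for all windows that start with a given value -/
def chk1 (z0 : ℕ) : Bool := all8 fun z1 => orB (Nat.beq z1 z0) (chk2 z0 z1)

theorem chk1_0 : chk1 (nat_lit 0) = true := by decide +kernel
theorem chk1_1 : chk1 (nat_lit 1) = true := by decide +kernel
theorem chk1_2 : chk1 (nat_lit 2) = true := by decide +kernel
theorem chk1_3 : chk1 (nat_lit 3) = true := by decide +kernel
theorem chk1_4 : chk1 (nat_lit 4) = true := by decide +kernel
theorem chk1_5 : chk1 (nat_lit 5) = true := by decide +kernel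
theorem chk1_6 : chk1 (nat_lit 6) = true := by decide +kernel
theorem chk1_7 : chk1 (nat_lit 7) = true := by decide +kernel

lemma leaf_small (z : Fin 8 → ℕ) (hz : ∀ i, z i < 8) (hi : Function.Injective z) :
    leaf (z 0) (z 1) (z 2) (z 3) (z 4) (z 5) (z 6) (z 7) = true := by
  have h : chk1 (z 0) = true := by
    have := hz 0
    interval_cases (z 0)
    · exact chk1_0
    · exact chk1_1
    · exact chk1_2
    · exact chk1_3
    · exact chk1_4
    · exact chk1_5
    · exact chk1_6
    · exact chk1_7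
  have h1 : z 1 ≠ z 0 := fun e => absurd (hi e) (by decide)
  exact chk2_spec (orB_spec (all8_spec h (z 1) (hz 1)) h1) z rfl rfl hz hi

/-- ranks of the values of a window -/
def std (z : Fin 8 → ℕ) (i : Fin 8) : ℕ := (Finset.univ.filter fun j => z j < z i).card

lemma std_lt_iff (z : Fin 8 → ℕ) (i j : Fin 8) : std z i < std z j ↔ z i < z j := by
  have key : ∀ i j : Fin 8, z i < z j → std z i < std z j := by
    intro i j h
    refine Finset.card_lt_card ?_
    rw [Finset.ssubset_iff_of_subset fun k hk => by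
      simp only [Finset.mem_filter, Finset.mem_univ, true_and] at hk ⊢; omega]
    exact ⟨i, by simp [h]⟩
  constructor
  · intro h
    by_contra hc
    rcases Nat.lt_or_ge (z j) (z i) with h1 | h1
    · have := key j i h1; omega
    · have e : z i = z j := by omega
      simp [std, e] at h
  · exact key i j

lemma std_inj (z : Fin 8 → ℕ) (hi : Function.Injective z) : Function.Injective (std z) := by
  intro i j h
  have h1 := std_lt_iff z i j
  have h2 := std_lt_iff z j i
  apply hi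
  omega

lemma std_lt (z : Fin 8 → ℕ) (i : Fin 8) : std z i < 8 := by
  have : (Finset.univ.filter fun j => z j < z i).card < (Finset.univ : Finset (Fin 8)).card :=
    Finset.card_lt_card (by
      rw [Finset.ssubset_univ_iff]
      intro h
      have : i ∈ Finset.univ.filter fun j => z j < z i := by rw [h]; exact Finset.mem_univ i
      simp at this)
  simpa [std] using this

lemma lt_std (z : Fin 8 → ℕ) (i j : Fin 8) : lt (std z i) (std z j) = lt (z i) (z j) := by
  rw [lt_eq, lt_eq]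
  simp only [std_lt_iff]

lemma leaf_all (z : Fin 8 → ℕ) (hi : Function.Injective z) :
    leaf (z 0) (z 1) (z 2) (z 3) (z 4) (z 5) (z 6) (z 7) = true := by
  have h := leaf_small (std z) (std_lt z) (std_inj z hi)
  simp only [leaf, force_eq, phi, psi, code4, code7, dig, lt_std] at h ⊢
  exact h

lemma entry_lt (T k : ℕ) : entry T k < 1048576 := by
  show (T >>> (20 * k)) &&& 1048575 < 1048576
  exact Nat.lt_succ_of_le Nat.and_le_right

/-- the consequences of the check for a window of eight distinct values -/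
lemma leaf_spec (z : Fin 8 → ℕ) (hi : Function.Injective z) :
    1 ≤ phi (z 4) (z 5) (z 6) (z 7) ∧
    1 ≤ psi (z 0) (z 1) (z 2) (z 3) (z 4) (z 5) (z 6) (z 7) ∧
    ∀ e < 8, 10000 * phi (z 0) (z 1) (z 2) (z 3) *
        entry (block (code7 (z 1) (z 2) (z 3) (z 4) (z 5) (z 6) (z 7))) e +
      10000 * lt (z 4) (z 3) * phi (z 0) (z 1) (z 2) (z 4) *
        entry (block (code7 (z 1) (z 2) (z 4) (z 3) (z 5) (z 6) (z 7))) e ≤
      16609 * (phi (z 4) (z 5) (z 6) (z 7) *
        psi (z 0) (z 1) (z 2) (z 3) (z 4) (z 5) (z 6) (z 7)) := by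
  have h := leaf_all z hi
  simp only [leaf, force_eq, andB_eq, Bool.and_eq_true] at h
  obtain ⟨h1, h2, h3⟩ := h
  refine ⟨Nat.le_of_ble_eq_true h1, Nat.le_of_ble_eq_true h2, fun e he => ?_⟩
  obtain ⟨k0, k1, k2, k3, k4, k5, k6, k7⟩ := h3
  interval_cases e
  · exact Nat.le_of_ble_eq_true k0
  · exact Nat.le_of_ble_eq_true k1
  · exact Nat.le_of_ble_eq_true k2
  · exact Nat.le_of_ble_eq_true k3
  · exact Nat.le_of_ble_eq_true k4
  · exact Nat.le_of_ble_eq_true k5
  · exact Nat.le_of_ble_eq_true k6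
  · exact Nat.le_of_ble_eq_true k7

lemma dig_eq (a b c d e f g h : ℕ) : dig a b c d e f g h =
    lt a h + (lt b h + (lt c h + (lt d h + (lt e h + (lt f h + lt g h))))) := rfl

lemma lt_le (a b : ℕ) : lt a b ≤ 1 := by rw [lt_eq]; split_ifs <;> simp

/-- The local inequality, in natural numbers. -/
lemma local_nat (z : Fin 8 → ℕ) (y : ℕ) (hi : Function.Injective z) :
    10000 * (psi (z 1) (z 2) (z 3) (z 4) (z 5) (z 6) (z 7) y * phi (z 0) (z 1) (z 2) (z 3)) +
      (if z 4 < z 3 then 10000 * (psi (z 1) (z 2) (z 4) (z 3) (z 5) (z 6) (z 7) y *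
        phi (z 0) (z 1) (z 2) (z 4)) else 0) ≤
      16609 * (psi (z 0) (z 1) (z 2) (z 3) (z 4) (z 5) (z 6) (z 7) *
        phi (z 4) (z 5) (z 6) (z 7)) := by
  obtain ⟨-, -, h⟩ := leaf_spec z hi
  have a1 := lt_le (z 1) y
  have a2 := lt_le (z 2) y
  have a3 := lt_le (z 3) y
  have a4 := lt_le (z 4) y
  have a5 := lt_le (z 5) y
  have a6 := lt_le (z 6) y
  have a7 := lt_le (z 7) y
  have e1 : dig (z 1) (z 2) (z 4) (z 3) (z 5) (z 6) (z 7) y =
      dig (z 1) (z 2) (z 3) (z 4) (z 5) (z 6) (z 7) y := by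
    rw [dig_eq, dig_eq]; omega
  have hd : dig (z 1) (z 2) (z 3) (z 4) (z 5) (z 6) (z 7) y < 8 := by
    rw [dig_eq]; omega
  have := h _ hd
  rw [lt_eq (z 4) (z 3)] at this
  simp only [psi, e1] at this ⊢
  split_ifs at this ⊢ with hc
  · calc _ = _ := by ring
      _ ≤ _ := this
      _ = _ := by ring
  · calc _ = _ := by ring
      _ ≤ _ := this
      _ = _ := by ring

/-- weight of the window from position `k` on -/
def wF (u : ℕ → ℕ) (k : ℕ) : ℝ := (phi (u (k + 3)) (u (k + 2)) (u (k + 1)) (u k) : ℝ)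

/-- weight of the window of eight values from position `k` on -/
def wG (u : ℕ → ℕ) (k : ℕ) : ℝ := (psi (u (k + 7)) (u (k + 6)) (u (k + 5)) (u (k + 4)) (u (k + 3))
  (u (k + 2)) (u (k + 1)) (u k) : ℝ)

lemma win_inj {u : ℕ → ℕ} (hu : Function.Injective u) (k : ℕ) : Function.Injective
    ![u (k + 7), u (k + 6), u (k + 5), u (k + 4), u (k + 3), u (k + 2), u (k + 1), u k] := by
  intro i j hij
  fin_cases i <;> fin_cases j <;> first | rfl | (exfalso; have := hu hij; omega)

/-- The local potentials. -/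
theorem pot344 : Pot 4 1 (16609 / 10000) 1048576 wF wG where
  ha := by norm_num
  hμ := by norm_num
  hB := by norm_num
  F1 u k hu := by
    have h : 1 ≤ phi (u (k + 3)) (u (k + 2)) (u (k + 1)) (u k) := (leaf_spec _ (win_inj hu k)).1
    show (1 : ℝ) ≤ (phi (u (k + 3)) (u (k + 2)) (u (k + 1)) (u k) : ℝ)
    exact_mod_cast h
  F2 u k := by
    have h : phi (u (k + 3)) (u (k + 2)) (u (k + 1)) (u k) ≤ 1048576 :=
      (entry_lt tabF (code4 (u (k + 3)) (u (k + 2)) (u (k + 1)) (u k))).le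
    show (phi (u (k + 3)) (u (k + 2)) (u (k + 1)) (u k) : ℝ) ≤ 1048576
    exact_mod_cast h
  G1 u k hu := by
    have h : 1 ≤ psi (u (k + 7)) (u (k + 6)) (u (k + 5)) (u (k + 4)) (u (k + 3)) (u (k + 2))
      (u (k + 1)) (u k) := (leaf_spec _ (win_inj hu k)).2.1
    show (1 : ℝ) ≤ (psi (u (k + 7)) (u (k + 6)) (u (k + 5)) (u (k + 4)) (u (k + 3)) (u (k + 2))
      (u (k + 1)) (u k) : ℝ)
    exact_mod_cast h
  G2 u k := by
    have h : psi (u (k + 7)) (u (k + 6)) (u (k + 5)) (u (k + 4)) (u (k + 3))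
      (u (k + 2)) (u (k + 1)) (u k) ≤ 1048576 := (entry_lt _ _).le
    show (psi (u (k + 7)) (u (k + 6)) (u (k + 5)) (u (k + 4)) (u (k + 3)) (u (k + 2))
      (u (k + 1)) (u k) : ℝ) ≤ 1048576
    exact_mod_cast h
  hlow u m k hk := by
    simp only [wF, Function.comp_apply, s_apply]
    rw [if_neg, if_neg, if_neg, if_neg, if_neg, if_neg, if_neg, if_neg] <;> omega
  hhigh u m k hk := by
    simp only [wF, Function.comp_apply, s_apply]
    rw [if_neg, if_neg, if_neg, if_neg, if_neg, if_neg, if_neg, if_neg] <;> omega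
  loc u m hu := by
    have h := local_nat ![u (m + 8), u (m + 7), u (m + 6), u (m + 5), u (m + 4), u (m + 3),
      u (m + 2), u (m + 1)] (u m) (win_inj hu (m + 1))
    have h' : (10000 : ℝ) * (psi (u (m + 7)) (u (m + 6)) (u (m + 5)) (u (m + 4)) (u (m + 3))
        (u (m + 2)) (u (m + 1)) (u m) * phi (u (m + 8)) (u (m + 7)) (u (m + 6)) (u (m + 5))) +
      (if u (m + 4) < u (m + 5) then 10000 * ((psi (u (m + 7)) (u (m + 6)) (u (m + 4))
        (u (m + 5)) (u (m + 3)) (u (m + 2)) (u (m + 1)) (u m) : ℝ) *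
        phi (u (m + 8)) (u (m + 7)) (u (m + 6)) (u (m + 4))) else 0) ≤
      16609 * (psi (u (m + 8)) (u (m + 7)) (u (m + 6)) (u (m + 5)) (u (m + 4))
        (u (m + 3)) (u (m + 2)) (u (m + 1)) *
        phi (u (m + 4)) (u (m + 3)) (u (m + 2)) (u (m + 1))) := by exact_mod_cast h
    have e1 : wG (u ∘ s (m + 4)) m = (psi (u (m + 7)) (u (m + 6)) (u (m + 4))
        (u (m + 5)) (u (m + 3)) (u (m + 2)) (u (m + 1)) (u m) : ℝ) := by
      simp [wG, s_apply, show m ≠ m + 4 + 1 by omega]
    have e2 : wF (u ∘ s (m + 4)) (m + 4 + 1) =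
        (phi (u (m + 8)) (u (m + 7)) (u (m + 6)) (u (m + 4)) : ℝ) := by
      simp [wF, s_apply]
    rw [e1, e2]
    have e3 : wF u (m + 4 + 1) = (phi (u (m + 8)) (u (m + 7)) (u (m + 6)) (u (m + 5)) : ℝ) := rfl
    have e4 : wF u (m + 1) = (phi (u (m + 4)) (u (m + 3)) (u (m + 2)) (u (m + 1)) : ℝ) := rfl
    have e5 : wG u m = (psi (u (m + 7)) (u (m + 6)) (u (m + 5)) (u (m + 4)) (u (m + 3))
        (u (m + 2)) (u (m + 1)) (u m) : ℝ) := rfl
    have e6 : wG u (m + 1) = (psi (u (m + 8)) (u (m + 7)) (u (m + 6)) (u (m + 5)) (u (m + 4))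
        (u (m + 3)) (u (m + 2)) (u (m + 1)) : ℝ) := rfl
    rw [e3, e4, e5, e6]
    have e7 : m + 4 + 1 = m + 5 := rfl
    rw [e7]
    split_ifs at h' ⊢ <;> linarith

end Pool.Agent.H27.Sch
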